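import Pool.Agent.W_2c7c9d_h91.Main

set_option autoImplicit false

namespace Pool.Agent.Results.MP_2c7c9d_co.DiffuseSets

/-- For every `κ > 0` there is `k₀` such that in every abelian group `G` the following holds.  Let `A` be
a finite set of nonzero elements of `G` with sum zero and at least `k₀` elements, and suppose that for every
finite subgroup `H` of `G` with at most `|A| ^ (1 + κ)` elements and every `x` in `G` more than
`|A| ^ (1 / 2 + κ)` elements of `A` are outside the coset `x + H`.  Then `A` can be listed so that all its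
partial sums are pairwise distinct. -/
theorem result :
    ∀ κ : ℝ, 0 < κ → ∃ k₀ : ℕ, ∀ (G : Type) [AddCommGroup G] (A : Finset G),
      k₀ ≤ A.card →
      (0 : G) ∉ A →
      A.sum (fun a => a) = 0 →
      (∀ (H : AddSubgroup G) (x : G), (H : Set G).Finite →
        (Nat.card H : ℝ) ≤ (A.card : ℝ) ^ (1 + κ) →
        (A.card : ℝ) ^ (1 / 2 + κ) < (({a : G | a ∈ A ∧ a - x ∉ H}.ncard : ℕ) : ℝ)) →
      ∃ l : List G, l.Nodup ∧ (∀ x, x ∈ l ↔ x ∈ A) ∧
        ∀ i j : Fin l.length,
          (l.take (i.val + 1)).sum = (l.take (j.val + 1)).sum → i = j := by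
  intro κ hκ
  classical
  obtain ⟨k₀, h⟩ := Pool.Agent.Zs91.main hκ
  refine ⟨k₀, fun G _ A hk h0 hsum hH => h G A hk h0 hsum fun H x hf hc => ?_⟩
  have h1 := hH H x hf hc
  have h2 : {a : G | a ∈ A ∧ a - x ∉ H}.ncard = (A.filter (fun a => a - x ∉ H)).card := by
    rw [← Set.ncard_coe_finset]
    congr 1
    ext a
    simp
  rw [h2] at h1
  convert h1

end Pool.Agent.Results.MP_2c7c9d_co.DiffuseSets
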