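import Pool.Agent.W_MP_2c7c9d_co.Core
import Pool.Agent.W_MP_2c7c9d_co.Linear

set_option autoImplicit false

namespace Pool.Agent.Results.MP_2c7c9d_co.LargeOrders

open Pool.Agent.W_MP_2c7c9d_co

/-- Let `A` be a finite zero-sum set of nonzero elements of an abelian group `G` containing no pair
`x, -x` with `x ≠ -x`, and let `H` be a subgroup of `G`.  Let `B` be the set of elements of `A`
outside `H`, and `T` the set of those `x` in `A` with `m • x ∈ H` for some `1 ≤ m ≤ |B|!`.
If `|T| ≤ 2 ^ ⌈|A \ T| / 2⌉ + 1`, then `A` can be listed so that all its partial sums are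
distinct. -/
theorem result :
    ∀ (G : Type) [AddCommGroup G] (A : Finset G),
      (0 : G) ∉ A →
      (∀ x ∈ A, -x ∈ A → -x = x) →
      A.sum (fun a => a) = 0 →
      ∀ (H : AddSubgroup G) (B T : Finset G),
        (∀ x, x ∈ B ↔ x ∈ A ∧ x ∉ H) →
        (∀ x, x ∈ T ↔ x ∈ A ∧ ∃ m : ℕ, 0 < m ∧ m ≤ B.card.factorial ∧ m • x ∈ H) →
        T.card ≤ 2 ^ ((A.card - T.card + 1) / 2) + 1 →
        ∃ l : List G, l.Nodup ∧ (∀ x, x ∈ l ↔ x ∈ A) ∧
          ∀ i j : Fin l.length,
            (l.take (i.val + 1)).sum = (l.take (j.val + 1)).sum → i = j := by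
  intro G _ A h0 hpm hsum H B T hB hT hcard
  classical
  obtain ⟨φ, hφ1, hφ2⟩ := exists_weight A B H hB
  have hsub : A.filter (fun a => φ a = 0) ⊆ T := by
    intro a ha
    rw [Finset.mem_filter] at ha
    rw [hT]
    refine ⟨ha.1, ?_⟩
    by_contra hcon
    push Not at hcon
    exact hφ2 a ha.1 hcon ha.2
  have hTA : T ⊆ A := fun x hx => ((hT x).1 hx).1
  have h1 := Finset.card_le_card hsub
  have h2 := Finset.card_le_card hTA
  obtain ⟨l, hl1, hl2⟩ := main_weight A h0 hpm hsum φ hφ1 (by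
    refine (h1.trans hcard).trans ?_
    have h3 : (A.card - T.card + 1) / 2 ≤
        (A.card - (A.filter (fun a => φ a = 0)).card + 1) / 2 := by omega
    have h4 := Nat.pow_le_pow_right (show 1 ≤ 2 by norm_num) h3
    omega)
  refine ⟨l, ?_, ?_, distinct_of_nodup l hl2⟩
  · rw [← Multiset.coe_nodup, hl1]; exact A.nodup
  · intro x
    rw [← Multiset.mem_coe, hl1, Finset.mem_val]

end Pool.Agent.Results.MP_2c7c9d_co.LargeOrders
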